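import Mathlib

/-!
# An algebraic poset that is not weakly atomic (MP_e59eee, Q1)

Let `Q` be the set of pairs `(n, p)`, `n` a natural number and `p ≥ 0` a real number, ordered by
`(n, p) ≤ (m, q)` iff `n ≤ m` and (`p = 0`, or `(n, p) = (m, q)`, or `p < q` and `n < m`).
The poset of ideals of `Q` is algebraic. The pairs `(n, 0)` form an ideal `x`, and the ideals that
contain `x` are the sets `{(n, p) | p < r}` with `0 < r ≤ ∞` and `x` itself. So the
interval from `x` to `y = Q` is a dense chain.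
-/

namespace Pool.Agent.Results.MP_e59eee_co.NotWeaklyAtomic

/-- Every directed (nonempty) subset has a least upper bound. -/
def UpComplete (P : Type*) [PartialOrder P] : Prop :=
  ∀ D : Set P, D.Nonempty → DirectedOn (· ≤ ·) D → ∃ s, IsLUB D s

/-- Compact elements: if `c` is below the least upper bound of a directed (nonempty) set `D`, then
`c ≤ d` for some `d ∈ D`. -/
def Compact {P : Type*} [PartialOrder P] (c : P) : Prop :=
  ∀ D : Set P, D.Nonempty → DirectedOn (· ≤ ·) D → ∀ s, IsLUB D s → c ≤ s → ∃ d ∈ D, c ≤ d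

/-- Algebraic posets: up-complete, and every element is the least upper bound of a directed set of
compact elements. -/
def Algebraic (P : Type*) [PartialOrder P] : Prop :=
  UpComplete P ∧ ∀ x : P, ∃ D : Set P, D.Nonempty ∧ DirectedOn (· ≤ ·) D ∧
    (∀ c ∈ D, Compact c) ∧ IsLUB D x

/-- Weakly atomic posets: if `x < y` there are `u`, `v` with `x ≤ u < v ≤ y` such that `v`
covers `u`. -/
def WeaklyAtomic (P : Type*) [PartialOrder P] : Prop :=
  ∀ x y : P, x < y → ∃ u v : P, x ≤ u ∧ u ⋖ v ∧ v ≤ y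

section ideals

variable {Q : Type*} [PartialOrder Q]

/-- The union of a directed set of ideals. -/
def dirUnion (D : Set (Order.Ideal Q)) (hne : D.Nonempty) (hD : DirectedOn (· ≤ ·) D) :
    Order.Ideal Q where
  carrier := {q | ∃ I ∈ D, q ∈ I}
  lower' := by
    rintro a b hba ⟨I, hI, ha⟩
    exact ⟨I, hI, I.lower hba ha⟩
  nonempty' := by
    obtain ⟨I, hI⟩ := hne
    obtain ⟨q, hq⟩ := I.nonempty
    exact ⟨q, I, hI, hq⟩
  directed' := by
    rintro a ⟨I, hI, ha⟩ b ⟨J, hJ, hb⟩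
    obtain ⟨K, hK, hIK, hJK⟩ := hD I hI J hJ
    obtain ⟨c, hc, hac, hbc⟩ := K.directed a (hIK ha) b (hJK hb)
    exact ⟨c, ⟨K, hK, hc⟩, hac, hbc⟩

theorem mem_dirUnion {D : Set (Order.Ideal Q)} {hne : D.Nonempty} {hD : DirectedOn (· ≤ ·) D}
    {q : Q} : q ∈ dirUnion D hne hD ↔ ∃ I ∈ D, q ∈ I := Iff.rfl

theorem isLUB_dirUnion (D : Set (Order.Ideal Q)) (hne : D.Nonempty)
    (hD : DirectedOn (· ≤ ·) D) : IsLUB D (dirUnion D hne hD) := by
  constructor
  · intro I hI q hq
    exact ⟨I, hI, hq⟩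
  · rintro J hJ q ⟨I, hI, hq⟩
    exact hJ hI hq

theorem compact_principal (q : Q) : Compact (Order.Ideal.principal q) := by
  intro D hne hD s hs hle
  have h : s = dirUnion D hne hD := hs.unique (isLUB_dirUnion D hne hD)
  subst h
  obtain ⟨I, hI, hq⟩ := hle (Order.Ideal.mem_principal_self)
  exact ⟨I, hI, Order.Ideal.principal_le_iff.2 hq⟩

/-- The poset of ideals of a poset is algebraic. -/
theorem algebraic_ideal : Algebraic (Order.Ideal Q) := by
  refine ⟨fun D hne hD => ⟨_, isLUB_dirUnion D hne hD⟩, fun I => ?_⟩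
  refine ⟨Order.Ideal.principal '' (I : Set Q), I.nonempty.image _, ?_, ?_, ?_, ?_⟩
  · rintro _ ⟨a, ha, rfl⟩ _ ⟨b, hb, rfl⟩
    obtain ⟨c, hc, hac, hbc⟩ := I.directed a ha b hb
    exact ⟨_, ⟨c, hc, rfl⟩, Order.Ideal.principal_le_iff.2 (Order.Ideal.mem_principal.2 hac),
      Order.Ideal.principal_le_iff.2 (Order.Ideal.mem_principal.2 hbc)⟩
  · rintro _ ⟨a, _, rfl⟩
    exact compact_principal a
  · rintro _ ⟨a, ha, rfl⟩
    exact Order.Ideal.principal_le_iff.2 ha
  · intro J hJ a ha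
    exact Order.Ideal.principal_le_iff.1 (hJ ⟨a, ha, rfl⟩)

end ideals

/-- The underlying set of the poset `Q`. -/
structure Pt where
  n : ℕ
  p : ℝ
  nonneg : 0 ≤ p

/-- The order of `Q`. -/
instance : PartialOrder Pt where
  le a b := a.n ≤ b.n ∧ (a.p = 0 ∨ a = b ∨ (a.p < b.p ∧ a.n < b.n))
  le_refl a := ⟨le_refl _, Or.inr (Or.inl rfl)⟩
  le_trans := by
    rintro a b c ⟨h1, h2⟩ ⟨h3, h4⟩
    refine ⟨h1.trans h3, ?_⟩
    rcases h2 with h2 | h2 | h2
    · exact Or.inl h2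
    · subst h2; exact h4
    · rcases h4 with h4 | h4 | h4
      · have := a.nonneg
        exact absurd h2.1 (by rw [h4]; exact this.not_gt)
      · subst h4; exact Or.inr (Or.inr h2)
      · exact Or.inr (Or.inr ⟨h2.1.trans h4.1, h2.2.trans h4.2⟩)
  le_antisymm := by
    rintro ⟨n, p, hp⟩ ⟨m, q, hq⟩ ⟨h1, h2⟩ ⟨h3, h4⟩
    simp only at h1 h2 h3 h4
    have hnm : n = m := le_antisymm h1 h3
    subst hnm
    rcases h2 with h2 | h2 | h2
    · rcases h4 with h4 | h4 | h4
      · subst h2; subst h4; rfl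
      · exact h4.symm
      · exact absurd h4.2 (lt_irrefl _)
    · exact h2
    · exact absurd h2.2 (lt_irrefl _)

theorem le_def {a b : Pt} :
    a ≤ b ↔ a.n ≤ b.n ∧ (a.p = 0 ∨ a = b ∨ (a.p < b.p ∧ a.n < b.n)) := Iff.rfl

theorem p_le {a b : Pt} (h : a ≤ b) : a.p ≤ b.p := by
  rcases (le_def.1 h).2 with h2 | h2 | h2
  · rw [h2]; exact b.nonneg
  · rw [h2]
  · exact h2.1.le

/-- The element `(n, 0)`. -/
def d (n : ℕ) : Pt := ⟨n, 0, le_refl _⟩

theorem d_le {n : ℕ} {b : Pt} (h : n ≤ b.n) : d n ≤ b := le_def.2 ⟨h, Or.inl rfl⟩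

/-- The ideal of all pairs `(n, p)` with `p < t`. -/
def I (t : ℝ) (ht : 0 < t) : Order.Ideal Pt where
  carrier := {a | a.p < t}
  lower' := fun _ _ hba ha => (p_le hba).trans_lt ha
  nonempty' := ⟨d 0, ht⟩
  directed' := by
    rintro a ha b hb
    obtain ⟨s, hs1, hs2⟩ := exists_between (max_lt ha hb : max a.p b.p < t)
    have h1 : a.p < s := (le_max_left _ _).trans_lt hs1
    have h2 : b.p < s := (le_max_right _ _).trans_lt hs1
    refine ⟨⟨max a.n b.n + 1, s, a.nonneg.trans h1.le⟩, hs2, ?_, ?_⟩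
    · exact le_def.2 ⟨by simp only; omega, Or.inr (Or.inr ⟨h1, by simp only; omega⟩)⟩
    · exact le_def.2 ⟨by simp only; omega, Or.inr (Or.inr ⟨h2, by simp only; omega⟩)⟩

theorem mem_I {t : ℝ} {ht : 0 < t} {a : Pt} : a ∈ I t ht ↔ a.p < t := Iff.rfl

/-- The ideal of all pairs `(n, 0)`. -/
def X : Order.Ideal Pt where
  carrier := {a | a.p = 0}
  lower' := by
    intro a b hba ha
    have h1 := p_le hba
    have h2 := b.nonneg
    have h3 : a.p = 0 := ha
    show b.p = 0
    linarith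
  nonempty' := ⟨d 0, rfl⟩
  directed' := by
    rintro a ha b hb
    exact ⟨d (max a.n b.n), rfl, le_def.2 ⟨le_max_left _ _, Or.inl ha⟩,
      le_def.2 ⟨le_max_right _ _, Or.inl hb⟩⟩

/-- The ideal of all pairs. -/
def Y : Order.Ideal Pt where
  carrier := Set.univ
  lower' := fun _ _ _ _ => Set.mem_univ _
  nonempty' := ⟨d 0, Set.mem_univ _⟩
  directed' := by
    rintro a _ b _
    have ha := a.nonneg
    have h1 : a.p < max a.p b.p + 1 := by linarith [le_max_left a.p b.p]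
    have h2 : b.p < max a.p b.p + 1 := by linarith [le_max_right a.p b.p]
    refine ⟨⟨max a.n b.n + 1, max a.p b.p + 1, by linarith⟩, Set.mem_univ _, ?_, ?_⟩
    · exact le_def.2 ⟨by simp only; omega, Or.inr (Or.inr ⟨h1, by simp only; omega⟩)⟩
    · exact le_def.2 ⟨by simp only; omega, Or.inr (Or.inr ⟨h2, by simp only; omega⟩)⟩

/-- An ideal that contains `X` and an element `b` contains all elements `a` with `a.p < b.p`. -/
theorem key {u : Order.Ideal Pt} (hu : X ≤ u) {a b : Pt} (hb : b ∈ u) (hab : a.p < b.p) :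
    a ∈ u := by
  have h1 : d (a.n + 1) ∈ u := hu (show (d (a.n + 1)).p = 0 from rfl)
  obtain ⟨c, hc, hbc, hdc⟩ := u.directed b hb _ h1
  have h2 : a.n + 1 ≤ c.n := (le_def.1 hdc).1
  have h3 := p_le hbc
  exact u.lower (le_def.2 ⟨by omega, Or.inr (Or.inr ⟨hab.trans_le h3, by omega⟩)⟩) hc

/-- An ideal that contains `X` and an element `a` with `a.p ≠ 0` contains some `b` with
`a.p < b.p`. -/
theorem key2 {u : Order.Ideal Pt} (hu : X ≤ u) {a : Pt} (ha : a ∈ u) (h0 : a.p ≠ 0) :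
    ∃ b ∈ u, a.p < b.p := by
  have h1 : d (a.n + 1) ∈ u := hu (show (d (a.n + 1)).p = 0 from rfl)
  obtain ⟨c, hc, hac, hdc⟩ := u.directed a ha _ h1
  have h2 : a.n + 1 ≤ c.n := (le_def.1 hdc).1
  refine ⟨c, hc, ?_⟩
  rcases (le_def.1 hac).2 with h | h | h
  · exact absurd h h0
  · rw [← h] at h2; omega
  · exact h.1

/-- There is an algebraic poset that is not weakly atomic. -/
theorem result : ∃ (P : Type) (_ : PartialOrder P), Algebraic P ∧ ¬ WeaklyAtomic P := by
  refine ⟨Order.Ideal Pt, inferInstance, algebraic_ideal, fun h => ?_⟩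
  have hXY : X < Y := by
    refine lt_of_le_of_ne (fun _ _ => Set.mem_univ _) ?_
    intro h
    have h1 : (⟨0, 1, by norm_num⟩ : Pt) ∈ X := by rw [h]; exact Set.mem_univ _
    have h2 : (1 : ℝ) = 0 := h1
    norm_num at h2
  obtain ⟨u, v, hu, huv, -⟩ := h X Y hXY
  have hv : X ≤ v := hu.trans huv.le
  obtain ⟨a, hav, hau⟩ := Set.exists_of_ssubset (show (u : Set Pt) ⊂ v from huv.lt)
  have ha0 : a.p ≠ 0 := fun h => hau (hu h)
  obtain ⟨b, hb, hab⟩ := key2 hv hav ha0
  obtain ⟨t, ht1, ht2⟩ := exists_between hab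
  have ht0 : 0 < t := a.nonneg.trans_lt ht1
  refine huv.2 (c := I t ht0) ?_ ?_
  · refine lt_of_le_of_ne ?_ ?_
    · intro c hc
      by_contra hcon
      exact hau (key hu hc (ht1.trans_le (not_lt.1 hcon)))
    · intro h
      exact hau (by rw [h]; exact ht1)
  · refine lt_of_le_of_ne ?_ ?_
    · intro c hc
      exact key hv hb ((mem_I.1 hc).trans ht2)
    · intro h
      have h1 : b ∈ I t ht0 := by rw [h]; exact hb
      exact absurd (mem_I.1 h1) (not_lt.2 ht2.le)

end Pool.Agent.Results.MP_e59eee_co.NotWeaklyAtomic
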